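import Pool.Agent.MVO.StmtsA

/-!
# Squad MVO, row NFA (helper91)

Types and the order of the last occurrences determine the word (class a).
-/

namespace Pool.Agent.MVO.H91

open Pool.Agent.Helper14_MV Pool.Agent.Helper2_MV Pool.Agent.MVO

theorem RR_trans {β : FIC} {a b c : List ℕ} (h1 : RR β a b) (h2 : RR β b c) : RR β a c :=
  β.trans h1 h2

/-- moving a letter to the right over a word -/
theorem move {β : FIC} (c : ℕ) (q : List ℕ) : ∀ (w p : List ℕ),
    (∀ w1 d w2, w = w1 ++ d :: w2 →
      RR β (p ++ w1 ++ c :: d :: (w2 ++ q)) (p ++ w1 ++ d :: c :: (w2 ++ q))) →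
      RR β (p ++ c :: (w ++ q)) (p ++ w ++ c :: q) := by
  intro w
  induction w with
  | nil => intro p _; simpa using RR.refl (β := β) (p ++ c :: q)
  | cons d w ih =>
    intro p hstep
    have h1 := hstep [] d w rfl
    rw [List.append_nil] at h1
    have h2 := ih (p ++ [d]) (by
      intro w1 e w2 hw
      have h3 := hstep (d :: w1) e w2 (by rw [hw]; rfl)
      simpa [List.append_assoc] using h3)
    have h3 : RR β (p ++ c :: (d :: w ++ q)) (p ++ [d] ++ c :: (w ++ q)) := by
      simpa [List.append_assoc] using h1
    have h4 : RR β (p ++ [d] ++ c :: (w ++ q)) (p ++ (d :: w) ++ c :: q) := by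
      simpa [List.append_assoc] using h2
    exact RR_trans h3 h4

theorem last_split {c : ℕ} {u : List ℕ} (h : c ∈ u) :
    ∃ u1 u2, u = u1 ++ c :: u2 ∧ c ∉ u2 := by
  obtain ⟨as, bs, h1, h2⟩ := List.eq_append_cons_of_mem (List.mem_reverse.mpr h)
  refine ⟨bs.reverse, as.reverse, ?_, by rwa [List.mem_reverse]⟩
  have h3 := congrArg List.reverse h1
  rw [List.reverse_reverse] at h3
  rw [h3]
  simp

theorem tail_nil {A B L : List ℕ} {c d : ℕ} (hL : d ∉ L) (h : A ++ c :: L = B ++ [d]) :
    L = [] ∧ A = B ∧ c = d := by
  rcases List.eq_nil_or_concat L with h1 | ⟨L', z, h1⟩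
  · subst h1
    have h2 := List.append_inj' h rfl
    exact ⟨rfl, h2.1, by simpa using h2.2⟩
  · exfalso
    rw [h1] at h
    have h2 : (A ++ c :: L') ++ [z] = B ++ [d] := by
      rw [← h]; simp
    have h3 := List.append_inj' h2 rfl
    have h4 : z = d := by simpa using h3.2
    apply hL
    rw [h1, h4]
    simp

/-- the filter which keeps a letter and the simple letters -/
def kf (k c : ℕ) : ℕ → Bool := fun x => decide (x = c) || decide (2 ≤ x ∧ x ≤ k + 1)

theorem kf_self (k c : ℕ) : kf k c c = true := by simp [kf]

theorem kf_simple {k c x : ℕ} (h : 2 ≤ x ∧ x ≤ k + 1) : kf k c x = true := by simp [kf, h]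

theorem kf_ne {k c x : ℕ} (h : x ≠ c) (h' : NS k x) : kf k c x = false := by
  unfold NS at h'
  simp only [kf, Bool.or_eq_false_iff, decide_eq_false_iff_not]
  exact ⟨h, h'⟩

/-- the filter which keeps two letters -/
def pf (c d : ℕ) : ℕ → Bool := fun x => decide (x = c ∨ x = d)

theorem claim (fma : FmaStmt) {β : FIC} (hA : ClA β) (k : ℕ) : ∀ (v u q : List ℕ),
    (∀ c, u.filter (kf k c) = v.filter (kf k c)) →
    (∀ c, ¬ NS k c → (u ++ q).count c ≤ 1) →
    (∀ c ∈ u, NS k c → 2 ≤ (u ++ q).count c) →
    (∀ c d, NS k c → NS k d → c ∉ q → d ∉ q →
      (u.filter (pf c d)).getLast? =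
        (v.filter (pf c d)).getLast?) →
      RR β (u ++ q) (v ++ q) := by
  intro v
  induction v using List.reverseRecOn with
  | nil =>
    intro u q h1 _ _ _
    have hu : u = [] := by
      rw [List.eq_nil_iff_forall_not_mem]
      intro c hc
      have h5 := h1 c
      rw [List.filter_nil, List.filter_eq_nil_iff] at h5
      exact h5 c hc (kf_self k c)
    rw [hu]
    exact RR.refl _
  | append_singleton v' c ih =>
    intro u q h1 h2 h3 h4
    have hfc : u.filter (kf k c) = v'.filter (kf k c) ++ [c] := by
      rw [h1 c, List.filter_append]
      congr 1
      rw [List.filter_cons_of_pos (kf_self k c)]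
      rfl
    have hcu : c ∈ u := by
      have h5 : c ∈ u.filter (kf k c) := by rw [hfc]; simp
      exact (List.mem_filter.mp h5).1
    obtain ⟨u1, u2, hu, hcu2⟩ := last_split hcu
    have hfu : ∀ d, kf k d c = true → u.filter (kf k d) = u1.filter (kf k d) ++ c :: u2.filter (kf k d) := by
      intro d hd
      rw [hu, List.filter_append, List.filter_cons_of_pos hd]
    have hfv : ∀ d, kf k d c = true → (v' ++ [c]).filter (kf k d) = v'.filter (kf k d) ++ [c] := by
      intro d hd
      rw [List.filter_append, List.filter_cons_of_pos hd]
      rfl
    have h5 : u2.filter (kf k c) = [] ∧ u1.filter (kf k c) = v'.filter (kf k c) ∧ c = c := by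
      apply tail_nil (d := c)
      · intro h6
        exact hcu2 (List.mem_filter.mp h6).1
      · rw [← hfu c (kf_self k c), hfc]
    have hns2 : ∀ d ∈ u2, NS k d := by
      intro d hd hs
      have h6 := h5.1
      rw [List.filter_eq_nil_iff] at h6
      exact h6 d hd (kf_simple hs)
    have hcount : ∀ d, (u1 ++ u2 ++ c :: q).count d = (u ++ q).count d := by
      intro d
      rw [hu]
      simp only [List.count_append, List.count_cons]
      omega
    -- the new hypotheses
    have hrec : (∀ d, (u1 ++ u2).filter (kf k d) = v'.filter (kf k d)) →
        RR β (u1 ++ u2 ++ c :: q) (v' ++ [c] ++ q) := by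
      intro h1'
      have h6 := ih (u1 ++ u2) (c :: q) h1'
        (fun d hd => by rw [hcount]; exact h2 d hd)
        (fun d hd hd' => by
          rw [hcount]
          apply h3 d _ hd'
          rw [hu]
          rcases List.mem_append.mp hd with h7 | h7
          · exact List.mem_append_left _ h7
          · exact List.mem_append_right _ (List.mem_cons_of_mem _ h7))
        (fun d e hd he hdq heq => by
          have hdc : c ≠ d := fun h7 => hdq (by rw [← h7]; simp)
          have hec : c ≠ e := fun h7 => heq (by rw [← h7]; simp)
          have h7 := h4 d e hd he (fun h8 => hdq (List.mem_cons_of_mem _ h8))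
            (fun h8 => heq (List.mem_cons_of_mem _ h8))
          have h8 : ¬ pf d e c = true := by
            simp [pf, hdc, hec]
          rw [hu, List.filter_append, List.filter_cons_of_neg h8, List.filter_append (l₁ := v'),
            List.filter_cons_of_neg h8] at h7
          rw [List.filter_append]
          simpa using h7)
      simpa [List.append_assoc] using h6
    by_cases hcs : NS k c
    · -- `c` is not simple
      have h1' : ∀ d, (u1 ++ u2).filter (kf k d) = v'.filter (kf k d) := by
        intro d
        by_cases hdc : c = d
        · subst hdc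
          rw [List.filter_append, h5.1, List.append_nil, h5.2.1]
        · have h6 : ¬ kf k d c = true := by rw [kf_ne hdc hcs]; simp
          have h7 := h1 d
          rw [hu, List.filter_append, List.filter_cons_of_neg h6, List.filter_append (l₁ := v'),
            List.filter_cons_of_neg h6] at h7
          rw [List.filter_append]
          simpa using h7
      have h6 := hrec h1'
      have hc2 := h3 c hcu hcs
      have h7 : RR β (u ++ q) (u1 ++ u2 ++ c :: q) := by
        have h8 : u ++ q = u1 ++ c :: (u2 ++ q) := by rw [hu]; simp
        rw [h8]
        apply move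
        intro w1 d w2 hw
        have hdu2 : d ∈ u2 := by rw [hw]; simp
        have hdc : d ≠ c := fun h9 => hcu2 (h9 ▸ hdu2)
        by_cases hcq : c ∈ q
        · -- FMA with `c ∈ q`
          apply fma β hA
          · exact List.mem_append_right _ hcq
          · have h9 := h3 d (by rw [hu]; exact List.mem_append_right _ (List.mem_cons_of_mem _ hdu2))
              (hns2 d hdu2)
            rw [hu, hw] at h9
            by_contra h10
            rw [not_or] at h10
            have h11 : List.count d (u1 ++ w1) = 0 := List.count_eq_zero_of_not_mem h10.1
            have h12 : List.count d (w2 ++ q) = 0 := List.count_eq_zero_of_not_mem h10.2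
            simp only [List.count_append, List.count_cons] at h9 h11 h12
            have h13 : (c == d) = false := by simpa using fun h => hdc h.symm
            rw [h13] at h9
            simp at h9
            omega
        · -- FMA with `d ∈ q`
          have hdq : d ∈ q := by
            by_contra hdq
            have h9 := h4 c d hcs (hns2 d hdu2) hcq hdq
            have h10 : pf c d c = true := by simp [pf]
            rw [hu, List.filter_append, List.filter_cons_of_pos h10, List.filter_append (l₁ := v'),
              List.filter_cons_of_pos h10] at h9
            have h11 : ∀ L : List ℕ, c ∉ L → d ∈ L →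
                (L.filter (pf c d)) ≠ [] ∧
                ∀ x ∈ L.filter (pf c d), x = d := by
              intro L hL1 hL2
              refine ⟨?_, ?_⟩
              · intro h12
                rw [List.filter_eq_nil_iff] at h12
                exact h12 d hL2 (by simp [pf])
              · intro x hx
                obtain ⟨hx1, hx2⟩ := List.mem_filter.mp hx
                rcases of_decide_eq_true hx2 with h13 | h13
                · exact absurd (h13 ▸ hx1) hL1
                · exact h13
            obtain ⟨h12, h13⟩ := h11 u2 hcu2 hdu2
            obtain ⟨L', z, hz⟩ := (List.eq_nil_or_concat _).resolve_left h12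
            have hzd : z = d := h13 z (by rw [hz]; simp)
            have h14 : ∀ A : List ℕ, (A ++ c :: L'.concat z).getLast? = some z := by
              intro A
              rw [List.concat_eq_append, ← List.cons_append, ← List.append_assoc,
                List.getLast?_concat]
            have h15 : ∀ A : List ℕ, (A ++ c :: List.filter (pf c d) []).getLast? = some c := by
              intro A
              rw [List.filter_nil, List.getLast?_concat]
            rw [hz, h14, h15, Option.some.injEq] at h9
            exact hdc (by rw [← hzd, h9])
          have h9 := fma β hA (u1 ++ w1) (w2 ++ q) d c (List.mem_append_right _ hdq) (by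
            left
            have h10 : List.count c (u1 ++ w1) ≠ 0 := by
              intro h11
              rw [hu] at hc2
              have h12 : List.count c u2 = 0 := List.count_eq_zero_of_not_mem hcu2
              have h13 : List.count c q = 0 := List.count_eq_zero_of_not_mem hcq
              simp only [List.count_append, List.count_cons] at hc2 h11
              simp at hc2
              omega
            by_contra h11
            exact h10 (List.count_eq_zero_of_not_mem h11))
          exact h9.symm
      exact RR_trans h7 h6
    · -- `c` is simple
      have hs : 2 ≤ c ∧ c ≤ k + 1 := by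
        unfold NS at hcs
        exact not_not.mp hcs
      have hu2 : u2 = [] := by
        rw [List.eq_nil_iff_forall_not_mem]
        intro d hd
        have h6 : u2.filter (kf k d) = [] ∧ u1.filter (kf k d) = v'.filter (kf k d) ∧ c = c := by
          apply tail_nil (d := c)
          · intro h7
            exact hcu2 (List.mem_filter.mp h7).1
          · rw [← hfu d (kf_simple hs), h1 d, hfv d (kf_simple hs)]
        have h7 := h6.1
        rw [List.filter_eq_nil_iff] at h7
        exact h7 d hd (kf_self k d)
      subst hu2
      have h1' : ∀ d, (u1 ++ []).filter (kf k d) = v'.filter (kf k d) := by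
        intro d
        have h6 := h1 d
        rw [hfu d (kf_simple hs), hfv d (kf_simple hs)] at h6
        have h7 := List.append_inj' h6 rfl
        rw [List.append_nil]
        exact h7.1
      have h6 := hrec h1'
      have h7 : u ++ q = u1 ++ [] ++ c :: q := by rw [hu]; simp
      rw [h7]
      exact h6

theorem nfa (fma : FmaStmt) : NfaStmt := by
  intro β hA k B B' hB hB' hcnt hdeg hlast
  have h := claim fma hA k (asm k B') (asm k B) [] ?_ ?_ ?_ ?_
  · simpa using h
  · intro c
    have hp : ∀ x, 2 ≤ x → x ≤ k + 1 → kf k c x = true := fun x h1 h2 => kf_simple ⟨h1, h2⟩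
    rw [asm_filter _ hp, asm_filter _ hp]
    apply asm_congr
    intro j hj
    have h1 : ∀ (B : ℕ → List ℕ), BlkOk k B → (B j).filter (kf k c) = List.replicate ((B j).count c) c := by
      intro B hB
      rw [← List.filter_eq]
      apply List.filter_congr
      intro x hx
      have h2 := hB j hj x hx
      unfold NS at h2
      simp [kf, h2]
    rw [h1 B hB, h1 B' hB', hcnt j hj c]
  · intro c hc
    unfold NS at hc
    obtain ⟨h1, h2⟩ := not_not.mp hc
    rw [List.append_nil, count_sep hB h1 h2]
  · intro c hc hns
    rw [List.append_nil, count_asm hns]
    rcases mem_asm.mp hc with h1 | ⟨j, hj, h1⟩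
    · exact absurd h1 hns
    · exact hdeg j hj c h1
  · intro c d hc hd _ _
    exact hlast c d hc hd

end Pool.Agent.MVO.H91
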