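import Pool.Agent.MVO.StmtsN

/-!
# Squad MVO, row NPA (helper91)
-/

namespace Pool.Agent.MVO.H91

open Pool.Agent.Helper14_MV Pool.Agent.Helper2_MV Pool.Agent.MVO

theorem GE_mono {k : ℕ} {cls cls' : (ℕ → ℕ) → ℕ} {h0 h0' : ℕ} (π : ℕ → ℕ)
    (h1 : ∀ a, cls' a = π (cls a)) (h2 : h0' = π h0) : GE k cls h0 ≤ GE k cls' h0' := by
  intro u v huv c φ m q
  have key : ∀ W W' : Word, (∀ c, (gam (PC k (fun a => cls a = c) (c = h0))).r W W') →
      PC k (fun a => cls' a = c) (c = h0') W → PC k (fun a => cls' a = c) (c = h0') W' := by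
    rintro W W' hr ⟨a, ha, h3 | h3⟩
    · have h4 : PC k (fun b => cls b = cls a) (cls a = h0) W := ⟨a, ha, Or.inl ⟨h3.1, rfl⟩⟩
      obtain ⟨a', ha', h5 | h5⟩ := (gam_self (hr (cls a))).1 h4
      · refine ⟨a', ha', Or.inl ⟨h5.1, ?_⟩⟩
        have h6 : cls a' = cls a := h5.2
        show cls' a' = c
        rw [h1, h6, ← h1]
        exact h3.2
      · refine ⟨a', ha', Or.inr ⟨h5.1, ?_⟩⟩
        have h6 : cls' a = c := h3.2
        rw [← h6, h1, h5.2, h2]
    · have h4 : PC k (fun b => cls b = h0) (h0 = h0) W := ⟨a, ha, Or.inr ⟨h3.1, rfl⟩⟩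
      obtain ⟨a', ha', h5 | h5⟩ := (gam_self (hr h0)).1 h4
      · refine ⟨a', ha', Or.inl ⟨h5.1, ?_⟩⟩
        have h6 : cls a' = h0 := h5.2
        show cls' a' = c
        rw [h1, h6, ← h2, h3.2]
      · exact ⟨a', ha', Or.inr ⟨h5.1, h3.2⟩⟩
  have hW : ∀ c, (gam (PC k (fun a => cls a = c) (c = h0))).r (m * φ u * q) (m * φ v * q) := by
    intro c
    exact FIC.mul _ (FIC.mul _ (FIC.refl _ m) (FIC.sub _ φ (huv c))) (FIC.refl _ q)
  exact ⟨key _ _ hW, key _ _ fun c => FIC.symm _ (hW c)⟩

theorem deg1 (a : ℕ → ℕ) : deg 1 a = a 0 + a 1 := by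
  simp [deg, Finset.sum_range_succ]

theorem mw1 (a : ℕ → ℕ) : mw 1 a = List.replicate (a 0) 0 ++ 2 :: List.replicate (a 1) 0 := rfl

theorem mw1_v2 (a : ℕ → ℕ) : mw 1 a = mw 1 (v2 (a 0) (a 1)) := rfl

theorem mw1_inj {a b : ℕ → ℕ} (h : mw 1 a = mw 1 b) : a 0 = b 0 ∧ a 1 = b 1 := by
  have h1 := uniq (blkOk_mw 1 a) (blkOk_mw 1 b) h
  refine ⟨?_, ?_⟩
  · have h2 := congrArg List.length (h1 0 (by omega))
    simpa using h2
  · have h2 := congrArg List.length (h1 1 (by omega))
    simpa using h2

/-- exchanges in `GE 1 cls h0` -/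
theorem eck1 (eck : EckStmt) (g : ℕ → ℕ) (h0 : ℕ) (c c' : ℕ → ℕ) (h1 : deg 1 c = 3)
    (h2 : deg 1 c' = 3) (h3 : g (c 0) = g (c' 0)) :
    L1 (GE 1 (fun a => g (a 0)) h0) 1 c c' := by
  apply eck 1 _ h0 _ 1 c c' h1 h2
  · intro f hf
    have h4 := hf.mono 0 1 (by omega) le_rfl
    have h5 := hf.le 1 le_rfl
    have e : ∀ d : ℕ → ℕ, psh 1 f d 0 = (if f 0 = 0 then d 0 else 0) + (if f 1 = 0 then d 1 else 0) := by
      intro d
      simp [psh, Finset.sum_range_succ]
    show g (psh 1 f c 0) = g (psh 1 f c' 0)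
    rw [e, e]
    rw [deg1] at h1 h2
    by_cases h6 : f 0 = 0
    · by_cases h7 : f 1 = 0
      · rw [if_pos h6, if_pos h7, if_pos h6, if_pos h7, h1, h2]
      · rw [if_pos h6, if_neg h7, if_pos h6, if_neg h7, add_zero, add_zero, h3]
    · rw [if_neg h6, if_neg h6, if_neg (by omega), if_neg (by omega)]
  · intro a a' h
    show g (a 0) = g (a' 0)
    rw [h 0 (by omega)]

/-- a relation between degree 3 and degree at least 4 gives `x³ t ~ t x³` -/
theorem high {β : FIC} (hc : Cent β) {a a' : ℕ → ℕ} (h1 : deg 1 a = 3) (h2 : 4 ≤ deg 1 a')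
    (h : L1 β 1 a a') : L1 β 1 (v2 3 0) (v2 0 3) := by
  obtain ⟨K, hK⟩ := hc
  have h3 : RR β (List.replicate 3 0) (List.replicate (deg 1 a') 0) := by
    have h4 := h.sub (fun i => if i = 0 then [0] else [])
    have e : ∀ b : ℕ → ℕ, (mw 1 b).flatMap (fun i => if i = 0 then [0] else []) =
        List.replicate (deg 1 b) 0 := by
      intro b
      rw [mw1, List.flatMap_append, List.flatMap_cons, deg1]
      have e2 : ∀ n : ℕ, (List.replicate n 0).flatMap (fun i : ℕ => if i = 0 then [0] else []) =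
          List.replicate n 0 := by
        intro n
        induction n with
        | zero => rfl
        | succ n ih => rw [List.replicate_succ, List.flatMap_cons, ih]; rfl
      rw [e2, e2]
      simp [List.replicate_append_replicate]
    rw [e, e, h1] at h4
    exact h4
  obtain ⟨d, hd⟩ : ∃ d, deg 1 a' = 3 + (d + 1) := ⟨deg 1 a' - 4, by omega⟩
  rw [hd] at h3
  have h5 : ∀ j : ℕ, RR β (List.replicate 3 0) (List.replicate (3 + j * (d + 1)) 0) := by
    intro j
    induction j with
    | zero => simpa using RR.refl (β := β) (List.replicate 3 0)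
    | succ j ih =>
      have h6 := h3.append (RR.refl (β := β) (List.replicate (j * (d + 1)) 0))
      rw [List.replicate_append_replicate, List.replicate_append_replicate] at h6
      have e : 3 + (d + 1) + j * (d + 1) = 3 + (j + 1) * (d + 1) := by ring
      rw [e] at h6
      exact β.trans ih h6
  have h6 := h5 K
  have h7 := hK (3 + K * (d + 1)) (by nlinarith)
  -- rename `1` to `2`
  have h8 := h7.sub (fun i => if i = 0 then [0] else [2])
  have e2 : ∀ n : ℕ, (List.replicate n 0).flatMap (fun i : ℕ => if i = 0 then [0] else [2]) =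
      List.replicate n 0 := by
    intro n
    induction n with
    | zero => rfl
    | succ n ih => rw [List.replicate_succ, List.flatMap_cons, ih]; rfl
  simp only [List.flatMap_append, List.flatMap_cons, List.flatMap_nil, e2] at h8
  have h9 : RR β (List.replicate 3 0 ++ [2]) (List.replicate (3 + K * (d + 1)) 0 ++ [2]) :=
    h6.append (RR.refl _)
  have h10 : RR β ([2] ++ List.replicate 3 0) ([2] ++ List.replicate (3 + K * (d + 1)) 0) :=
    (RR.refl (β := β) [2]).append h6
  have h11 : RR β (List.replicate (3 + K * (d + 1)) 0 ++ [2])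
      ([2] ++ List.replicate (3 + K * (d + 1)) 0) := by simpa using h8
  exact β.trans h9 (β.trans h11 h10.symm)

theorem npa (ecb : EcbStmt) (eck : EckStmt) : NpaStmt := by
  intro β hth hnc hce hno h30 h31 h20 hmod
  -- the four types are not related
  have H : ∀ p p', p ≤ 3 → p' ≤ 3 → L1 β 1 (v2 p (3 - p)) (v2 p' (3 - p')) → p = p' := by
    intro p p' hp hp' h
    have s : L1 β 1 (v2 p' (3 - p')) (v2 p (3 - p)) := RR.symm h
    have n1 : ¬ L1 β 1 (v2 2 1) (v2 1 2) := hno.n1
    have n2 : ¬ L1 β 1 (v2 1 2) (v2 0 3) := hno.n2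
    have n3 : ¬ L1 β 1 (v2 3 0) (v2 2 1) := hno.n3
    interval_cases p <;> interval_cases p' <;>
      first
        | rfl
        | exact absurd h n1
        | exact absurd h n2
        | exact absurd h n3
        | exact absurd h h30
        | exact absurd h h31
        | exact absurd h h20
        | exact absurd s n1
        | exact absurd s n2
        | exact absurd s n3
        | exact absurd s h30
        | exact absurd s h31
        | exact absurd s h20
  have H2 : ∀ a a', deg 1 a = 3 → deg 1 a' = 3 → L1 β 1 a a' → a 0 = a' 0 := by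
    intro a a' h1 h2 h
    rw [deg1] at h1 h2
    apply H _ _ (by omega) (by omega)
    have e1 : 3 - a 0 = a 1 := by omega
    have e2 : 3 - a' 0 = a' 1 := by omega
    rw [e1, e2]
    exact h
  have hle : ∀ (g : ℕ → ℕ), β ≤ GE 1 (fun a => g (a 0)) 9 := by
    intro g
    apply ecb β hth hnc
    · intro a a' h
      show g (a 0) = g (a' 0)
      rw [h 0 (by omega)]
    · intro a a' h1 h2 h
      show g (a 0) = g (a' 0)
      rw [H2 a a' h1 h2 h]
    · intro a a' h1 h2 h
      exact absurd (high hce h1 h2 h) h30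
  let gX : ℕ → ℕ := fun n => if n ≤ 1 then 0 else n
  let gP : ℕ → ℕ := fun n => if n = 3 then 2 else n
  let gZ : ℕ → ℕ := fun n => if n = 1 ∨ n = 2 then 1 else 0
  let ρ := GE 1 (fun a => gX (a 0)) 9
  let σ := GE 1 (fun a => gZ (a 0)) 9
  let τ := GE 1 (fun a => gP (gX (a 0))) 9
  have hρτ : ρ ≤ τ := GE_mono gP (fun a => rfl) rfl
  have e1 : L1 σ 1 (v2 2 1) (v2 1 2) := eck1 eck gZ 9 _ _ (by decide) (by decide) (by decide)
  have e2 : L1 ρ 1 (v2 1 2) (v2 0 3) := eck1 eck gX 9 _ _ (by decide) (by decide) (by decide)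
  have e3 : L1 σ 1 (v2 0 3) (v2 3 0) := eck1 eck gZ 9 _ _ (by decide) (by decide) (by decide)
  have e4 : L1 τ 1 (v2 2 1) (v2 3 0) :=
    eck1 eck (fun n => gP (gX n)) 9 _ _ (by decide) (by decide) (by decide)
  have h5 := hmod ρ σ τ (hle gX) (hle gZ) (hle fun n => gP (gX n)) hρτ _ _
    (FIC.trans _ (FIC.le_sup_right ρ σ _ _ e1) (FIC.trans _ (FIC.le_sup_left ρ σ _ _ e2)
      (FIC.le_sup_right ρ σ _ _ e3))) e4
  -- the invariant
  have hinv : ∀ u v : Word, Relation.ReflTransGen (FIC.stp ρ (FIC.inf σ τ)) u v →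
      u.toList = mw 1 (v2 2 1) → v.toList = mw 1 (v2 2 1) := by
    intro u v h hu
    induction h with
    | refl => exact hu
    | tail _ hstep ih =>
      rename_i w w'
      rcases hstep with h6 | h6
      · obtain ⟨a', ha', h7 | h7⟩ := (gam_self (h6 2)).1 ⟨v2 2 1, ih, Or.inl ⟨by decide, by decide⟩⟩
        · have h8 : gX (a' 0) = 2 := h7.2
          have h9 : a' 0 = 2 := by
            simp only [gX] at h8
            by_contra h10
            split_ifs at h8
            exact h10 h8
          have h10 : a' 1 = 1 := by have := h7.1; rw [deg1] at this; omega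
          rw [ha', mw1_v2, h9, h10]
        · exact absurd h7.2 (by decide)
      · obtain ⟨a', ha', h7 | h7⟩ := (gam_self (h6.1 1)).1 ⟨v2 2 1, ih, Or.inl ⟨by decide, by decide⟩⟩
        · obtain ⟨a'', ha'', h8 | h8⟩ :=
            (gam_self (h6.2 2)).1 ⟨v2 2 1, ih, Or.inl ⟨by decide, by decide⟩⟩
          · have h9 : gZ (a' 0) = 1 := h7.2
            have h10 : gP (gX (a'' 0)) = 2 := h8.2
            have h11 := mw1_inj (ha'.symm.trans ha'')
            rw [← h11.1] at h10
            have h12 : a' 0 = 1 ∨ a' 0 = 2 := by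
              by_contra h13
              simp only [gZ] at h9
              rw [if_neg h13] at h9
              exact absurd h9 (by decide)
            have h13 : a' 0 = 2 := by
              rcases h12 with h14 | h14
              · rw [h14] at h10
                exact absurd h10 (by decide)
              · exact h14
            have h14 : a' 1 = 1 := by have := h7.1; rw [deg1] at this; omega
            rw [ha', mw1_v2, h13, h14]
          · exact absurd h8.2 (by decide)
        · exact absurd h7.2 (by decide)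
  have h6 := hinv _ _ h5 rfl
  exact absurd h6 (by decide)

end Pool.Agent.MVO.H91
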