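import Pool.Agent.MVO.StmtsF
import Pool.Agent.Helper67_MVO.TCB

/-! Row TFB of the squad MVO (helper91): tightness of class c3 over `O2`, first blocks.  The case
analysis in reversed coordinates is the one of helper67 (row TCB). -/

set_option autoImplicit false

namespace Pool.Agent.MVO.H91

open Pool.Agent.Helper14_MV Pool.Agent.Helper2_MV Pool.Agent.MVO
open Pool.Agent.MVO.H65.TacRow
open Pool.Agent.MVO.H67 (rp_zero rp_ne_zero rp_pair two_eq min_of push2 deg_two deg_rv)

theorem coreF (hoca : OcaStmt) (hocr : OcrStmt) {R : FC} (h3 : O3 R) {k I : ℕ} (hI : I ≤ k)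
    {A A' B : ℕ → ℕ} {G : Prop} (hdA : 2 ≤ deg k A) (hdd : deg k A = deg k A')
    (hRR : R.R k A A') (hP : pr k A ≠ pr k A') (f1 : ∀ j ≤ k, I < j → A j = 0)
    (hQ : ∃ q < I, B q ≠ 0)
    (rule : ∀ C, R.R k A C → deg k C = deg k A →
      (C I = 0 ∨ (∃ j ≤ k, I < j ∧ 1 ≤ C j) ∨ ∃ j ≤ k, j ≠ I ∧ 1 ≤ C j ∧ 1 ≤ B j) → G) : G := by
  have rule0 : ∀ C, R.R k A C → deg k C = deg k A → C I = 0 → G :=
    fun C h1 h2 h4 => rule C h1 h2 (Or.inl h4)
  obtain ⟨m, hm, hmm⟩ := exists_max (pr_nonempty (k := k) (a := A) (by omega))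
  obtain ⟨m', hm', hmm'⟩ := exists_max (pr_nonempty (k := k) (a := A') (by omega))
  have hra : R.R k A (rp (pr k A) m (deg k A)) := rp_rel hoca h3 hm hmm
  have hra' : R.R k A (rp (pr k A') m' (deg k A)) := by
    have h1 := rp_rel hoca h3 hm' hmm'
    rw [← hdd] at h1
    exact R.trans hRR h1
  have hle : ∀ j ∈ pr k A, j ≤ I := by
    intro j hj
    by_contra h1
    push Not at h1
    have h2 := mem_sp'.1 (pr_sub_sp hj)
    exact h2.2 (f1 j h2.1 h1)
  by_cases hmI : m = I
  swap
  · refine rule0 _ hra (deg_rp pr_sub_range hm card_pr_le) (rp_zero hm fun hIP => ?_)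
    have h1 := hmm I hIP
    have h2 := hle m hm
    omega
  have hcd' : (pr k A').card ≤ deg k A := by
    rw [hdd]
    exact card_pr_le
  by_cases hmI' : m' = I
  swap
  · refine rule _ hra' (deg_rp pr_sub_range hm' hcd') ?_
    by_cases h1 : I ∈ pr k A'
    · right
      left
      have h2 := hmm' I h1
      have h4 := Finset.mem_range.1 (pr_sub_range hm')
      exact ⟨m', by omega, by omega, Nat.one_le_iff_ne_zero.2 (rp_ne_zero hm')⟩
    · exact Or.inl (rp_zero hm' h1)
  subst hmI
  subst hmI'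
  obtain ⟨C1, _, _, C4, _⟩ := hocr R k A A' h3 hdA hdd hRR hP
  by_cases hcard : 3 ≤ (pr k A).card
  · have hJ := C1 (pr k A).card hcard (tr_ne (le_refl _) hP hm hmm') (Or.inl (le_refl _))
    have hsub : tr ((pr k A).card - 1) (pr k A) ⊆ Finset.range (k + 1) :=
      tr_sub.trans pr_sub_range
    have hcd : (tr ((pr k A).card - 1) (pr k A)).card ≤ deg k A :=
      (Finset.card_le_card tr_sub).trans card_pr_le
    obtain ⟨q, hq, hqq⟩ := exists_max (tr_nonempty (P := pr k A) (m := (pr k A).card - 1)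
      ⟨_, hm⟩ (by omega))
    have h5 := hJ k A (rp (tr ((pr k A).card - 1) (pr k A)) q (deg k A)) rfl
      (deg_rp hsub hq hcd) rfl (pr_rp hsub hq hqq)
    exact rule0 _ h5 (deg_rp hsub hq hcd) (rp_zero hq (tr_top hm hmm))
  by_cases hcard' : 3 ≤ (pr k A').card
  · have hJ := C1 (pr k A').card hcard' (tr_ne (le_refl _) (Ne.symm hP) hm' hmm).symm
      (Or.inr (le_refl _))
    have hsub : tr ((pr k A').card - 1) (pr k A') ⊆ Finset.range (k + 1) :=
      tr_sub.trans pr_sub_range
    have hcd : (tr ((pr k A').card - 1) (pr k A')).card ≤ deg k A :=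
      (Finset.card_le_card tr_sub).trans hcd'
    obtain ⟨q, hq, hqq⟩ := exists_max (tr_nonempty (P := pr k A') (m := (pr k A').card - 1)
      ⟨_, hm'⟩ (by omega))
    have h5 := hJ k A' (rp (tr ((pr k A').card - 1) (pr k A')) q (deg k A)) hdd.symm
      (deg_rp hsub hq hcd) rfl (pr_rp hsub hq hqq)
    exact rule0 _ (R.trans hRR h5) (deg_rp hsub hq hcd) (rp_zero hq (tr_top hm' hmm'))
  obtain ⟨p, hp, hpp, hPp⟩ := two_eq hm hmm (by omega)
  obtain ⟨p', hp', hpp', hPp'⟩ := two_eq hm' hmm' (by omega)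
  have hmin : (pr k A).min ≠ (pr k A').min := by
    intro h
    rw [min_of hp hpp, min_of hp' hpp'] at h
    have h1 : p = p' := WithTop.coe_inj.1 h
    apply hP
    rw [hPp, hPp', h1]
  have hB := C4 hmin (by
    rintro ⟨h5, h6⟩
    obtain ⟨x, hx⟩ := Finset.card_eq_one.1 h5
    obtain ⟨x', hx'⟩ := Finset.card_eq_one.1 h6
    apply hP
    rw [hx] at hm
    rw [hx'] at hm'
    rw [hx, hx', ← Finset.mem_singleton.1 hm, ← Finset.mem_singleton.1 hm'])
  unfold B3 at hB
  have hsg : R.R k A (fun j => (if j = p then 0 else 0) + (if j = m' then deg k A else 0)) := by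
    by_cases hpm : p = m'
    · refine R.ext (fun _ _ => rfl) ?_ hra
      intro j _
      have hs : pr k A = {m'} := by
        rw [hPp, hpm]
        simp
      unfold rp
      rw [hs, Finset.card_singleton, ite_self, Nat.zero_add]
      by_cases hj : j = m'
      · rw [if_pos hj, if_pos hj, if_pos (by rw [hj]; simp)]
        omega
      · rw [if_neg hj, if_neg hj, if_neg (by rw [Finset.mem_singleton]; exact hj)]
    · have hpm' : p < m' := by
        have := hpp m' hm
        omega
      have h5 := push2 (k := k) hpm'.le hI hB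
      have h6 : R.R k A (fun j => (if j = p then 1 else 0) +
          (if j = m' then deg k A - 1 else 0)) := by
        refine R.ext (fun _ _ => rfl) ?_ hra
        intro j _
        rw [hPp]
        exact rp_pair hpm hdA j
      exact R.trans h6 (R.symm h5)
  obtain ⟨q, hq, hBq⟩ := hQ
  have h5 := push2 (k := k) hq.le hI hB
  have h6 : R.R k A (fun j => (if j = q then 1 else 0) +
      (if j = m' then deg k A - 1 else 0)) := by
    refine R.trans hsg (R.ext ?_ (fun _ _ => rfl) h5)
    intro j _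
    rw [ite_self, ite_self]
  have hqk : q ≤ k := by omega
  refine rule _ h6 (by rw [deg_two hqk hI]; omega) (Or.inr (Or.inr ⟨q, hqk, by omega, ?_, ?_⟩))
  · rw [if_pos rfl]
    omega
  · exact Nat.one_le_iff_ne_zero.2 hBq

/-- two entries give degree at least 2 -/
theorem two_le_deg {k i j : ℕ} {b : ℕ → ℕ} (hi : i ≤ k) (hj : j ≤ k) (hij : i ≠ j)
    (h1 : 1 ≤ b i) (h2 : 1 ≤ b j) : 2 ≤ deg k b := by
  unfold deg
  have h3 : ∑ t ∈ ({i, j} : Finset ℕ), b t ≤ ∑ t ∈ Finset.range (k + 1), b t := by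
    apply Finset.sum_le_sum_of_subset
    intro t ht
    rw [Finset.mem_insert, Finset.mem_singleton] at ht
    rw [Finset.mem_range]
    omega
  rw [Finset.sum_pair hij] at h3
  omega

/-- row TFB -/
theorem tfb (hopf : OpfStmt) (hoca : OcaStmt) (hocr : OcrStmt) (hfcn : FcnStmt) : TfbStmt := by
  intro β ρ hle hc h2 k a a' b i hd3 hdd h1 hL hi hla hlb hz ha hb
  obtain ⟨Rb, hRb, hOb⟩ := hopf (FC.ofFIC β)
  obtain ⟨R, hR, hO⟩ := hopf (FC.ofFIC ρ)
  have h3b : O3 Rb := hOb h2
  have h3 : O3 R := hO (rr_mono hle h2)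
  obtain ⟨N0, N2, -⟩ := hfcn ρ hc
  have hdb : 2 ≤ deg k b := by
    obtain ⟨j, hj, hij, hbj⟩ := hlb
    exact two_le_deg hi hj (by omega) hb hbj
  -- back and forth
  have back : ∀ {S : FC} {S' : FC}, (∀ k a b, S'.R k a b ↔
      S.R k (fun j => a (k - j)) (fun j => b (k - j))) → ∀ {c C : ℕ → ℕ},
        S'.R k (fun j => c (k - j)) C → S.R k c (fun j => C (k - j)) := by
    intro S S' hS c C h
    refine S.ext ?_ (fun _ _ => rfl) ((hS k _ _).1 h)
    intro j hj
    rw [show k - (k - j) = j by omega]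
  have hRR : R.R k (fun j => a (k - j)) (fun j => a' (k - j)) := by
    refine (hR k _ _).2 ((FC.ofFIC ρ).ext ?_ ?_ h1)
    · intro j hj
      rw [show k - (k - j) = j by omega]
    · intro j hj
      rw [show k - (k - j) = j by omega]
  have hnb : ¬ Rb.R k (fun j => a (k - j)) (fun j => a' (k - j)) := by
    intro h
    apply hL
    have h5 := back hRb h
    refine (FC.ofFIC β).ext (fun _ _ => rfl) ?_ h5
    intro j hj
    rw [show k - (k - j) = j by omega]
  have hddA : deg k (fun j => a (k - j)) = deg k (fun j => a' (k - j)) := by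
    rw [deg_rv, deg_rv, hdd]
  have hP : pr k (fun j => a (k - j)) ≠ pr k (fun j => a' (k - j)) :=
    fun h => hnb (hoca Rb k _ _ h3b hddA h)
  have hdA : 2 ≤ deg k (fun j => a (k - j)) := by
    rw [deg_rv]
    omega
  have hI : k - i ≤ k := Nat.sub_le _ _
  refine coreF hoca hocr (B := fun j => b (k - j)) h3 hI hdA hddA hRR hP ?_ ?_ ?_
  · intro j hj hij
    exact (hz (k - j) (by omega)).1
  · obtain ⟨j, hj, hij, hbj⟩ := hlb
    refine ⟨k - j, by omega, ?_⟩
    rw [show k - (k - j) = j by omega]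
    omega
  · intro C hC hdC hcase
    rw [deg_rv] at hdC
    refine N2 k a (fun j => C (k - j)) b i (back hR hC)
      (N0 k (fun j => C (k - j)) b i ?_ hdb hi hlb ?_)
    · rw [deg_rv, hdC]
      omega
    · rcases hcase with h | ⟨j, hj, hij, hCj⟩ | ⟨j, hj, hij, hCj, hBj⟩
      · exact Or.inl h
      · right
        left
        refine ⟨k - j, by omega, ?_⟩
        rw [show k - (k - j) = j by omega]
        exact hCj
      · right
        right
        left
        refine ⟨k - j, by omega, by omega, ?_, hBj⟩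
        rw [show k - (k - j) = j by omega]
        exact hCj

end Pool.Agent.MVO.H91
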